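import Mathlib

namespace Pool.Agent.Results.MP_b4d381_co.InfiniteMin

open Finset

/-- A finite simple graph, on the vertex set `Fin n`. -/
structure FG where
  n : ℕ
  G : SimpleGraph (Fin n)

/-- The degree sequence: the vertex degrees in non-increasing order. -/
noncomputable def degSeq (H : FG) : List ℕ :=
  Multiset.sort (Finset.univ.val.map fun v : Fin H.n => (H.G.neighborSet v).ncard) (· ≥ ·)

/-- `H` has an induced subgraph isomorphic to `F`. -/
def Induces (H F : FG) : Prop := Nonempty (F.G ↪g H.G)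

/-- `H` is `S`-free: it induces no member of `S`. -/
def Free (S : Set FG) (H : FG) : Prop := ∀ F ∈ S, ¬ Induces H F

/-- A nonempty set of graphs is degree-sequence-forcing. -/
def DSF (S : Set FG) : Prop :=
  S.Nonempty ∧ ∀ H H' : FG, degSeq H = degSeq H' → Free S H → Free S H'

/-- Minimal up to isomorphism: every degree-sequence-forcing subset already contains an
isomorphic copy of every member. -/
def MinimalDSF (S : Set FG) : Prop :=
  DSF S ∧ ∀ T ⊆ S, DSF T → ∀ F ∈ S, ∃ F' ∈ T, Nonempty (F.G ≃g F'.G)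

/-- `H` lies in `P(G)`: some graph with the degree sequence of `H` induces `G`. -/
def InP (G H : FG) : Prop := ∃ H' : FG, degSeq H' = degSeq H ∧ Induces H' G

/-- `H` lies in `D(G)`: it lies in `P(G)` and no proper induced subgraph of it does. -/
def InD (G H : FG) : Prop := InP G H ∧ ∀ K : FG, K.n < H.n → Induces H K → ¬ InP G K

lemma exists_equiv {H H' : FG} (h : degSeq H' = degSeq H) :
    ∃ σ : Fin H.n ≃ Fin H'.n,
      ∀ v, (H'.G.neighborSet (σ v)).ncard = (H.G.neighborSet v).ncard := by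
  classical
  have h1 : (Finset.univ.val.map fun v : Fin H'.n => (H'.G.neighborSet v).ncard)
      = (Finset.univ.val.map fun v : Fin H.n => (H.G.neighborSet v).ncard) := by
    have := congrArg (fun l : List ℕ => (l : Multiset ℕ)) h
    simpa only [degSeq, Multiset.sort_eq] using this
  have h2 : ∀ k : ℕ, Fintype.card {v : Fin H.n // (H.G.neighborSet v).ncard = k}
      = Fintype.card {v : Fin H'.n // (H'.G.neighborSet v).ncard = k} := by
    intro k
    have := congrArg (Multiset.count k) h1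
    rw [Multiset.count_map, Multiset.count_map] at this
    rw [Fintype.card_subtype, Fintype.card_subtype]
    simp only [Finset.card, Finset.filter_val]
    simp only [eq_comm (a := k)] at this
    exact this.symm
  refine ⟨Equiv.ofFiberEquiv (f := fun v => (H.G.neighborSet v).ncard)
    (g := fun v => (H'.G.neighborSet v).ncard) fun k => Fintype.equivOfCardEq (h2 k), fun v => ?_⟩
  exact Equiv.ofFiberEquiv_map (f := fun v => (H.G.neighborSet v).ncard)
    (g := fun v => (H'.G.neighborSet v).ncard) _ v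

open Classical in
noncomputable def tm {V : Type} (H : SimpleGraph V) (w : V → ℤ) (u v : V) : ℤ :=
  if u = v then 0 else if H.Adj u v then max 0 (-(w u + w v)) else max 0 (w u + w v)

noncomputable def DD {V : Type} [Fintype V] (H : SimpleGraph V) (w : V → ℤ) : ℤ :=
  ∑ u, ∑ v, tm H w u v

lemma tm_nonneg {V : Type} (H : SimpleGraph V) (w : V → ℤ) (u v : V) : 0 ≤ tm H w u v := by
  unfold tm; split_ifs <;> simp

open Classical in
lemma ncard_eq {V : Type} [Fintype V] (H : SimpleGraph V) (u : V) :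
    ((H.neighborSet u).ncard : ℤ) = ∑ v, if H.Adj u v then 1 else 0 := by
  have : H.neighborSet u = ↑(univ.filter (H.Adj u)) := by ext v; simp
  rw [this, Set.ncard_coe_finset, Finset.card_filter]; push_cast; rfl

open Classical in
lemma DD_eq {V : Type} [Fintype V] (H : SimpleGraph V) (w : V → ℤ) :
    DD H w = (∑ u, ∑ v, if u = v then 0 else max 0 (w u + w v))
      - 2 * ∑ u, w u * (H.neighborSet u).ncard := by
  have h1 : ∀ u v, tm H w u v = (if u = v then 0 else max 0 (w u + w v))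
      - (w u * if H.Adj u v then 1 else 0) - (w v * if H.Adj v u then 1 else 0) := by
    intro u v
    unfold tm
    by_cases huv : u = v
    · subst huv; simp
    · by_cases ha : H.Adj u v
      · simp only [huv, ha, ha.symm, if_true, if_false]; omega
      · have hb : ¬ H.Adj v u := fun h => ha h.symm
        simp only [huv, ha, hb, if_false]; omega
  unfold DD
  simp only [h1, Finset.sum_sub_distrib, ncard_eq, Finset.mul_sum]
  rw [Finset.sum_comm (f := fun u v => w v * if H.Adj v u then (1 : ℤ) else 0)]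
  simp only [← Finset.mul_sum]
  ring

lemma DD_congr {V V' : Type} [Fintype V] [Fintype V'] (H : SimpleGraph V) (H' : SimpleGraph V')
    (σ : V ≃ V') (h : ∀ v, (H'.neighborSet (σ v)).ncard = (H.neighborSet v).ncard) (w : V → ℤ) :
    DD H' (fun x => w (σ.symm x)) = DD H w := by
  classical
  rw [DD_eq, DD_eq, ← σ.sum_comp, ← σ.sum_comp (fun u => w (σ.symm u) * _)]
  simp only [Equiv.symm_apply_apply, h]
  congr 1
  refine Finset.sum_congr rfl fun u _ => ?_
  rw [← σ.sum_comp]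
  simp

lemma tm_le {V : Type} [Fintype V] (H : SimpleGraph V) (w : V → ℤ) (u v : V) :
    tm H w u v ≤ DD H w := by
  unfold DD
  calc tm H w u v ≤ ∑ v, tm H w u v :=
        Finset.single_le_sum (f := fun v => tm H w u v) (fun _ _ => tm_nonneg _ _ _ _) (mem_univ v)
    _ ≤ _ := Finset.single_le_sum (f := fun u => ∑ v, tm H w u v)
        (fun _ _ => Finset.sum_nonneg fun _ _ => tm_nonneg _ _ _ _) (mem_univ u)

lemma three_le {V : Type} [Fintype V] (H : SimpleGraph V) (w : V → ℤ) (u u' v v' z : V)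
    (hu : u ≠ u') (hv : v ≠ v') : tm H w u v + tm H w u v' + tm H w u' z ≤ DD H w := by
  unfold DD
  have h1 : tm H w u v + tm H w u v' ≤ ∑ v, tm H w u v :=
    Finset.add_le_sum (f := fun v => tm H w u v) (fun _ _ => tm_nonneg _ _ _ _)
      (mem_univ v) (mem_univ v') hv
  have h2 : tm H w u' z ≤ ∑ v, tm H w u' v :=
    Finset.single_le_sum (f := fun v => tm H w u' v) (fun _ _ => tm_nonneg _ _ _ _) (mem_univ z)
  have h3 := Finset.add_le_sum (s := univ) (f := fun u => ∑ v, tm H w u v)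
    (fun _ _ => Finset.sum_nonneg fun _ _ => tm_nonneg _ _ _ _) (mem_univ u) (mem_univ u') hu
  linarith

lemma tm_emb {V V' : Type} {K : SimpleGraph V} {H : SimpleGraph V'} (e : K ↪g H) (w : V' → ℤ)
    (u v : V) : tm K (fun x => w (e x)) u v = tm H w (e u) (e v) := by
  unfold tm
  by_cases h : u = v
  · rw [if_pos h, if_pos (congrArg e h)]
  · rw [if_neg h, if_neg (e.injective.ne h)]
    by_cases ha : K.Adj u v
    · rw [if_pos ha, if_pos (e.map_adj_iff.2 ha)]
    · rw [if_neg ha, if_neg (fun h' => ha (e.map_adj_iff.1 h'))]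

def mk (n : ℕ) (R : ℕ → ℕ → Prop) : SimpleGraph (Fin n) where
  Adj x y := (x.val < y.val ∧ R x y) ∨ (y.val < x.val ∧ R y x)
  symm := ⟨fun _ _ h => h.symm⟩
  loopless := ⟨fun _ h => by omega⟩

def bA (c u v : ℕ) : Prop :=
  (v < 8 ∧ ((u % 2 = 0 ∧ v % 2 = 0) ∨ v = u + 1 ∨ (u = 0 ∧ v = 7))) ∨
    (8 ≤ v ∧ u < c ∧ u % 2 = 0) ∨ (u = c + 1 ∧ v = c + 2)

def R1 (c u v : ℕ) : Prop := bA c u v ∨ (u = 7 ∧ v = c)

def R2 (c u v : ℕ) : Prop :=
  ((7 ≤ u ∧ u < c ∧ v = u + 1) ∧ u % 2 = 1) ∨ (¬ (7 ≤ u ∧ u < c ∧ v = u + 1) ∧ bA c u v)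

def G0 : FG := ⟨11, mk 11 (R1 8)⟩
def H1 (c : ℕ) : FG := ⟨c + 3, mk (c + 3) (R1 c)⟩
def H2 (c : ℕ) : FG := ⟨c + 3, mk (c + 3) (R2 c)⟩

instance : DecidableRel (mk 11 (R1 8)).Adj := fun x y => by
  unfold mk R1 bA; infer_instance

lemma ncard_swap {V : Type} [DecidableEq V] (H H' : SimpleGraph V) (v x y : V)
    (h1 : H.Adj v x ↔ H'.Adj v y) (h2 : H.Adj v y ↔ H'.Adj v x)
    (h3 : ∀ u, u ≠ x → u ≠ y → (H.Adj v u ↔ H'.Adj v u)) :
    (H'.neighborSet v).ncard = (H.neighborSet v).ncard := by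
  rw [← Set.ncard_image_of_injective (H.neighborSet v) (Equiv.swap x y).injective]
  congr 1
  ext u
  rw [Set.mem_image_equiv]
  simp only [Equiv.symm_swap, SimpleGraph.mem_neighborSet]
  by_cases hx : u = x
  · subst hx; rw [Equiv.swap_apply_left]; exact h2.symm
  · by_cases hy : u = y
    · subst hy; rw [Equiv.swap_apply_right]; exact h1.symm
    · rw [Equiv.swap_apply_of_ne_of_ne hx hy]; exact (h3 u hx hy).symm

lemma adj_lt {n : ℕ} (R : ℕ → ℕ → Prop) (x y : Fin n) (h : x.val < y.val) :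
    (mk n R).Adj x y ↔ R x y :=
  ⟨fun h' => h'.elim (fun a => a.2) (fun a => absurd a.1 (by omega)), fun h' => Or.inl ⟨h, h'⟩⟩

lemma adj_gt {n : ℕ} (R : ℕ → ℕ → Prop) (x y : Fin n) (h : y.val < x.val) :
    (mk n R).Adj x y ↔ R y x := by
  rw [SimpleGraph.adj_comm, adj_lt R y x h]

lemma bA_mid (c a b : ℕ) (h1 : 8 ≤ b) (h2 : a < c) : bA c a b ↔ a % 2 = 0 :=
  ⟨fun h => by unfold bA at h; omega, fun h => Or.inr (Or.inl ⟨h1, h2, h⟩)⟩

lemma R2_flip (c a b : ℕ) (h : 7 ≤ a ∧ a < c ∧ b = a + 1) : R2 c a b ↔ a % 2 = 1 :=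
  ⟨fun h' => h'.elim (fun t => t.2) (fun t => absurd h t.1), fun h' => Or.inl ⟨h, h'⟩⟩

lemma R2_not (c a b : ℕ) (h : ¬ (7 ≤ a ∧ a < c ∧ b = a + 1)) : R2 c a b ↔ bA c a b :=
  ⟨fun h' => h'.elim (fun t => absurd t.1 h) (fun t => t.2), fun h' => Or.inr ⟨h, h'⟩⟩

lemma R1_not (c a b : ℕ) (h : ¬ (a = 7 ∧ b = c)) : R1 c a b ↔ bA c a b :=
  ⟨fun h' => h'.elim id (fun t => absurd t h), Or.inl⟩

lemma R1_sp (c a b : ℕ) (h : a = 7 ∧ b = c) : R1 c a b := Or.inr h

lemma adj_same (c : ℕ) (x y : Fin (c + 3))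
    (h1 : ¬ (7 ≤ x.val ∧ x.val < c ∧ y.val = x.val + 1))
    (h2 : ¬ (7 ≤ y.val ∧ y.val < c ∧ x.val = y.val + 1))
    (h3 : ¬ (x.val = 7 ∧ y.val = c)) (h4 : ¬ (y.val = 7 ∧ x.val = c)) :
    (mk (c + 3) (R2 c)).Adj x y ↔ (mk (c + 3) (R1 c)).Adj x y := by
  simp only [mk, R2_not c _ _ h1, R2_not c _ _ h2, R1_not c _ _ h3, R1_not c _ _ h4]

lemma deg_eq (c : ℕ) (hc : 10 ≤ c) (h2 : c % 2 = 0) (v : Fin (c + 3)) :
    ((mk (c + 3) (R1 c)).neighborSet v).ncard = ((mk (c + 3) (R2 c)).neighborSet v).ncard := by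
  have hv := v.isLt
  by_cases a1 : v.val = 7
  · refine ncard_swap _ _ v ⟨8, by omega⟩ ⟨c, by omega⟩ ?_ ?_ fun u hx hy => ?_
    · rw [adj_lt _ _ _ (by simp only; omega), adj_lt _ _ _ (by simp only; omega),
        R2_flip _ _ _ (by simp only; omega)]
      exact iff_of_true (by omega) (R1_sp _ _ _ ⟨a1, rfl⟩)
    · rw [adj_lt _ _ _ (by simp only; omega), adj_lt _ _ _ (by simp only; omega),
        R2_not _ _ _ (by simp only; omega), R1_not _ _ _ (by simp only; omega),
        bA_mid _ _ _ (by simp only; omega) (by omega), bA_mid _ _ _ (by simp only; omega) (by omega)]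
    · rw [Ne, Fin.ext_iff] at hx hy
      simp only at hx hy
      exact adj_same c v u (by omega) (by omega) (by omega) (by omega)
  by_cases a2 : v.val = c
  · refine ncard_swap _ _ v ⟨c - 1, by omega⟩ ⟨7, by omega⟩ ?_ ?_ fun u hx hy => ?_
    · rw [adj_gt _ _ _ (by simp only; omega), adj_gt _ _ _ (by simp only; omega),
        R2_flip _ _ _ (by simp only; omega)]
      exact iff_of_true (by simp only; omega) (R1_sp _ _ _ ⟨rfl, a2⟩)
    · rw [adj_gt _ _ _ (by simp only; omega), adj_gt _ _ _ (by simp only; omega),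
        R2_not _ _ _ (by simp only; omega), R1_not _ _ _ (by simp only; omega),
        bA_mid _ _ _ (by omega) (by simp only; omega), bA_mid _ _ _ (by omega) (by simp only; omega)]
      simp only; omega
    · rw [Ne, Fin.ext_iff] at hx hy
      simp only at hx hy
      exact adj_same c v u (by omega) (by omega) (by omega) (by omega)
  by_cases a3 : 8 ≤ v.val ∧ v.val < c
  · refine ncard_swap _ _ v ⟨v.val - 1, by omega⟩ ⟨v.val + 1, by omega⟩ ?_ ?_ fun u hx hy => ?_
    · rw [adj_gt _ _ _ (by simp only; omega), adj_lt _ _ _ (by simp only; omega),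
        R2_flip _ _ _ (by simp only; omega), R1_not _ _ _ (by simp only; omega),
        bA_mid _ _ _ (by simp only; omega) (by omega)]
      simp only; omega
    · rw [adj_lt _ _ _ (by simp only; omega), adj_gt _ _ _ (by simp only; omega),
        R2_flip _ _ _ ⟨by omega, by omega, rfl⟩, R1_not _ _ _ (by simp only; omega),
        bA_mid _ _ _ (by omega) (by simp only; omega)]
      simp only; omega
    · rw [Ne, Fin.ext_iff] at hx hy
      simp only at hx hy
      exact adj_same c v u (by omega) (by omega) (by omega) (by omega)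
  · refine ncard_swap _ _ v v v ?_ ?_ fun u hx hy => ?_
    · simp
    · simp
    · exact adj_same c v u (by omega) (by omega) (by omega) (by omega)

lemma R1_shift (c : ℕ) (hc : 10 ≤ c) (h2 : c % 2 = 0) (a b : ℕ) (hab : a < b) (hb : b < 11) :
    R1 c (if a < 8 then a else a + (c - 8)) (if b < 8 then b else b + (c - 8)) ↔ R1 8 a b := by
  by_cases b8 : b < 8
  · rw [if_pos (by omega), if_pos b8, R1_not _ _ _ (by omega), R1_not _ _ _ (by omega)]
    unfold bA
    refine or_congr Iff.rfl (iff_of_false (by omega) (by omega))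
  · rw [if_neg b8]
    by_cases a8 : a < 8
    · rw [if_pos a8]
      unfold R1
      rw [bA_mid _ _ _ (by omega) (by omega), bA_mid _ _ _ (by omega) (by omega)]
      refine or_congr Iff.rfl (by omega)
    · rw [if_neg a8, R1_not _ _ _ (by omega), R1_not _ _ _ (by omega)]
      unfold bA
      refine or_congr (iff_of_false (by omega) (by omega))
        (or_congr (iff_of_false (by omega) (by omega)) (by omega))

def emb (c : ℕ) (hc : 10 ≤ c) (x : Fin 11) : Fin (c + 3) :=
  ⟨if x.val < 8 then x.val else x.val + (c - 8), by have := x.isLt; split_ifs <;> omega⟩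

lemma emb_inj (c : ℕ) (hc : 10 ≤ c) : Function.Injective (emb c hc) := by
  intro x y h
  rw [Fin.ext_iff] at h ⊢
  simp only [emb] at h
  split_ifs at h <;> omega

lemma emb_adj (c : ℕ) (hc : 10 ≤ c) (h2 : c % 2 = 0) (x y : Fin 11) :
    (mk (c + 3) (R1 c)).Adj (emb c hc x) (emb c hc y) ↔ (mk 11 (R1 8)).Adj x y := by
  have hx : x.val < 11 := x.isLt
  have hy : y.val < 11 := y.isLt
  rcases lt_trichotomy x.val y.val with h | h | h
  · rw [adj_lt _ _ _ h, adj_lt _ _ _ (by simp only [emb]; split_ifs <;> omega)]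
    exact R1_shift c hc h2 _ _ h hy
  · rw [Fin.ext h]; simp
  · rw [adj_gt _ _ _ h, adj_gt _ _ _ (by simp only [emb]; split_ifs <;> omega)]
    exact R1_shift c hc h2 _ _ h hx

lemma H2_inP (c : ℕ) (hc : 10 ≤ c) (h2 : c % 2 = 0) : InP G0 (H2 c) := by
  refine ⟨H1 c, ?_, ⟨⟨⟨emb c hc, emb_inj c hc⟩, fun {x y} => emb_adj c hc h2 x y⟩⟩⟩
  unfold degSeq
  congr 1
  exact Multiset.map_congr rfl fun v _ => deg_eq c hc h2 v

def wt (j x : ℕ) : ℤ := if x < j then (if x % 2 = 0 then 1 else -1) else 0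

lemma core1 (c j a b : ℕ) (hj : 8 ≤ j) (hc : j ≤ c) (hab : a < b) (h : R2 c a b) :
    -(wt j a + wt j b) ≤ if a = j - 1 ∧ b = j then 1 else 0 := by
  by_cases hf : 7 ≤ a ∧ a < c ∧ b = a + 1
  · rw [R2_flip _ _ _ hf] at h
    unfold wt; split_ifs <;> omega
  · rw [R2_not _ _ _ hf] at h
    by_cases b8 : 8 ≤ b
    · by_cases ac : a < c
      · rw [bA_mid _ _ _ b8 ac] at h
        unfold wt; split_ifs <;> omega
      · unfold wt; split_ifs <;> omega
    · have : a % 2 = 0 ∨ b % 2 = 0 := by unfold bA at h; omega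
      unfold wt; split_ifs <;> omega

lemma core2 (c j a b : ℕ) (hj : 8 ≤ j) (hc : j ≤ c) (hab : a < b) (h : ¬ R2 c a b) :
    wt j a + wt j b ≤ if a = j - 1 ∧ b = j then 1 else 0 := by
  by_cases hf : 7 ≤ a ∧ a < c ∧ b = a + 1
  · rw [R2_flip _ _ _ hf] at h
    unfold wt; split_ifs <;> omega
  · rw [R2_not _ _ _ hf] at h
    by_cases b8 : 8 ≤ b
    · by_cases ac : a < c
      · rw [bA_mid _ _ _ b8 ac] at h
        unfold wt; split_ifs <;> omega
      · unfold wt; split_ifs <;> omega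
    · have : ¬ (a % 2 = 0 ∧ b % 2 = 0) := fun t => h (Or.inl ⟨by omega, Or.inl t⟩)
      unfold wt; split_ifs <;> omega

lemma tm_H2 (c j : ℕ) (hj : 8 ≤ j) (hc : j ≤ c) (x y : Fin (c + 3)) :
    tm (mk (c + 3) (R2 c)) (fun z => wt j z.val) x y ≤
      (if x.val = j - 1 ∧ y.val = j then 1 else 0) + (if x.val = j ∧ y.val = j - 1 then 1 else 0) := by
  have p1 : (0 : ℤ) ≤ if x.val = j - 1 ∧ y.val = j then 1 else 0 := by split_ifs <;> omega
  have p2 : (0 : ℤ) ≤ if x.val = j ∧ y.val = j - 1 then 1 else 0 := by split_ifs <;> omega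
  unfold tm
  by_cases hxy : x = y
  · rw [if_pos hxy]; linarith
  rw [if_neg hxy]
  rw [Fin.ext_iff] at hxy
  rcases lt_or_gt_of_ne hxy with h | h
  · by_cases ha : (mk (c + 3) (R2 c)).Adj x y
    · rw [if_pos ha]
      have := core1 c j _ _ hj hc h ((adj_lt _ _ _ h).1 ha)
      exact max_le (by linarith) (by linarith)
    · rw [if_neg ha]
      have := core2 c j _ _ hj hc h (fun t => ha ((adj_lt _ _ _ h).2 t))
      exact max_le (by linarith) (by linarith)
  · by_cases ha : (mk (c + 3) (R2 c)).Adj x y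
    · rw [if_pos ha]
      have := core1 c j _ _ hj hc h ((adj_gt _ _ _ h).1 ha)
      simp only [and_comm (a := y.val = j - 1)] at this
      exact max_le (by linarith) (by linarith)
    · rw [if_neg ha]
      have := core2 c j _ _ hj hc h (fun t => ha ((adj_gt _ _ _ h).2 t))
      simp only [and_comm (a := y.val = j - 1)] at this
      exact max_le (by linarith) (by linarith)

lemma ind_le {V : Type} [Fintype V] (g : V → ℕ) (hg : Function.Injective g) (a b : ℕ) :
    (∑ u, ∑ v, if g u = a ∧ g v = b then (1 : ℤ) else 0) ≤ 1 := by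
  rw [← Finset.sum_product', Finset.sum_boole]
  have : ((univ ×ˢ univ).filter fun p : V × V => g p.1 = a ∧ g p.2 = b).card ≤ 1 := by
    rw [Finset.card_le_one]
    intro p hp q hq
    simp only [mem_filter] at hp hq
    exact Prod.ext (hg (hp.2.1.trans hq.2.1.symm)) (hg (hp.2.2.trans hq.2.2.symm))
  exact_mod_cast this

lemma G0_non : ∀ x : Fin 11, ∃ y z : Fin 11, y ≠ z ∧ x ≠ y ∧ x ≠ z ∧
    ¬ (mk 11 (R1 8)).Adj x y ∧ ¬ (mk 11 (R1 8)).Adj x z := by decide +kernel

lemma G0_adj : ∀ x : Fin 11, ∃ y z : Fin 11, y ≠ z ∧ x ≠ y ∧ x ≠ z ∧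
    (mk 11 (R1 8)).Adj x y ∧ (mk 11 (R1 8)).Adj x z := by decide +kernel

lemma G0_zero (W : Fin 11 → ℤ) (h : ∀ x y, tm (mk 11 (R1 8)) W x y ≤ 0) : ∀ x, W x = 0 := by
  have ha : ∀ x y, x ≠ y → (mk 11 (R1 8)).Adj x y → 0 ≤ W x + W y := by
    intro x y h1 h2
    have := h x y
    unfold tm at this
    rw [if_neg h1, if_pos h2] at this
    omega
  have hn : ∀ x y, x ≠ y → ¬ (mk 11 (R1 8)).Adj x y → W x + W y ≤ 0 := by
    intro x y h1 h2
    have := h x y
    unfold tm at this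
    rw [if_neg h1, if_neg h2] at this
    omega
  have a1 := ha 7 8 (by decide) (by decide)
  have a2 := ha 9 10 (by decide) (by decide)
  have a3 := ha 7 6 (by decide) (by decide)
  have a4 := ha 1 2 (by decide) (by decide)
  have a5 := ha 7 0 (by decide) (by decide)
  have a6 := ha 3 4 (by decide) (by decide)
  have a7 := ha 5 4 (by decide) (by decide)
  have n1 := hn 7 9 (by decide) (by decide)
  have n2 := hn 7 10 (by decide) (by decide)
  have n3 := hn 8 9 (by decide) (by decide)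
  have n4 := hn 8 10 (by decide) (by decide)
  have n5 := hn 6 1 (by decide) (by decide)
  have n6 := hn 2 7 (by decide) (by decide)
  have n7 := hn 0 3 (by decide) (by decide)
  have n8 := hn 4 7 (by decide) (by decide)
  have n9 := hn 5 7 (by decide) (by decide)
  intro x
  fin_cases x <;> simp only [Fin.reduceFinMk] <;> omega

lemma big (c : ℕ) (K : FG) (hK : InP G0 K) (e : K.G ↪g (H2 c).G) (j : ℕ) (hj : 8 ≤ j)
    (hc : j ≤ c) : ∃ u, (e u).val = j := by
  by_contra hne
  push Not at hne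
  obtain ⟨L, hL, ⟨f⟩⟩ := hK
  obtain ⟨σ, hσ⟩ := exists_equiv hL
  have ginj : Function.Injective fun u => (e u).val := fun a b h => e.injective (Fin.ext h)
  have key : ∀ i, 8 ≤ i → i ≤ c → DD L.G (fun x => wt i (e (σ.symm x)).val) ≤
      (∑ u, ∑ v, if (e u).val = i - 1 ∧ (e v).val = i then (1 : ℤ) else 0) +
      (∑ u, ∑ v, if (e u).val = i ∧ (e v).val = i - 1 then (1 : ℤ) else 0) := by
    intro i h1 h2
    rw [DD_congr K.G L.G σ hσ (fun u => wt i (e u).val), ← Finset.sum_add_distrib]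
    refine Finset.sum_le_sum fun u _ => ?_
    rw [← Finset.sum_add_distrib]
    refine Finset.sum_le_sum fun v _ => ?_
    rw [tm_emb e (fun z => wt i z.val)]
    exact tm_H2 c i h1 h2 _ _
  let φ : Fin 11 → ℕ := fun x => (e (σ.symm (f x))).val
  have φinj : Function.Injective φ := fun a b h => f.injective (σ.symm.injective (ginj h))
  have φlt : ∀ x, φ x < c + 3 := fun x => (e (σ.symm (f x))).isLt
  have tmf : ∀ i x y, tm (mk 11 (R1 8)) (fun x => wt i (φ x)) x y
      = tm L.G (fun x => wt i (e (σ.symm x)).val) (f x) (f y) :=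
    fun i x y => tm_emb f (fun x => wt i (e (σ.symm x)).val) x y
  have h0 : ∀ x, j ≤ φ x := by
    have k0 := key j hj hc
    simp only [hne, and_false, false_and, if_false, Finset.sum_const_zero, add_zero] at k0
    have := G0_zero (fun x => wt j (φ x)) fun x y => by
      rw [tmf]; exact (tm_le _ _ _ _).trans k0
    intro x
    have hx := this x
    unfold wt at hx
    split_ifs at hx <;> omega
  obtain ⟨x, -, hx⟩ := Finset.exists_min_image univ φ ⟨0, mem_univ _⟩
  have hx' : ∀ y, x ≠ y → φ x < φ y := fun y hy =>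
    lt_of_le_of_ne (hx y (mem_univ _)) fun h => hy (φinj h)
  have hp : φ x + 1 ≤ c := by
    have : (univ : Finset (Fin 11)).card ≤ (Finset.Ico (φ x) (c + 3)).card :=
      Finset.card_le_card_of_injOn φ
        (fun y _ => by simp only [coe_Ico, Set.mem_Ico]; exact ⟨hx y (mem_univ _), φlt y⟩)
        φinj.injOn
    simp only [card_univ, Fintype.card_fin, Nat.card_Ico] at this
    omega
  have k2 := key (φ x + 1) (by have := h0 x; omega) hp
  have i1 := ind_le _ ginj (φ x + 1 - 1) (φ x + 1)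
  have i2 := ind_le _ ginj (φ x + 1) (φ x + 1 - 1)
  have hw : ∀ y, x ≠ y → wt (φ x + 1) (φ y) = 0 := fun y hy => by
    have := hx' y hy
    unfold wt; rw [if_neg (by omega)]
  by_cases hpar : φ x % 2 = 0
  · obtain ⟨y, z, hyz, hy, hz, ay, az⟩ := G0_non x
    have hwx : wt (φ x + 1) (φ x) = 1 := by unfold wt; rw [if_pos (by omega), if_pos hpar]
    have t := three_le L.G (fun x' => wt (φ x + 1) (e (σ.symm x')).val) (f x) (f y) (f y) (f z) (f x)
      (f.injective.ne hy) (f.injective.ne hyz)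
    rw [← tmf, ← tmf, ← tmf] at t
    have ay' : ¬ (mk 11 (R1 8)).Adj y x := fun h => ay h.symm
    simp only [tm, hy, hz, hy.symm, ay, az, ay', if_false, hwx, hw y hy, hw z hz] at t
    omega
  · obtain ⟨y, z, hyz, hy, hz, ay, az⟩ := G0_adj x
    have hwx : wt (φ x + 1) (φ x) = -1 := by unfold wt; rw [if_pos (by omega), if_neg hpar]
    have t := three_le L.G (fun x' => wt (φ x + 1) (e (σ.symm x')).val) (f x) (f y) (f y) (f z) (f x)
      (f.injective.ne hy) (f.injective.ne hyz)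
    rw [← tmf, ← tmf, ← tmf] at t
    simp only [tm, hy, hz, hy.symm, ay, az, ay.symm, if_false, if_true, hwx, hw y hy, hw z hz] at t
    omega

lemma exists_min (G : FG) : ∀ (n : ℕ) (H : FG), H.n = n → InP G H → ∃ K, InD G K ∧ Induces H K := by
  intro n
  induction n using Nat.strong_induction_on with
  | _ n ih =>
    intro H hn hH
    by_cases h : ∃ K : FG, K.n < H.n ∧ Induces H K ∧ InP G K
    · obtain ⟨K, h1, ⟨e⟩, h3⟩ := h
      obtain ⟨K', h4, ⟨e'⟩⟩ := ih K.n (hn ▸ h1) K rfl h3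
      exact ⟨K', h4, ⟨e.comp e'⟩⟩
    · exact ⟨H, ⟨hH, fun K h1 h2 h3 => h ⟨K, h1, h2, h3⟩⟩, ⟨SimpleGraph.Embedding.refl⟩⟩

lemma unbounded (N : ℕ) : ∃ K, InD G0 K ∧ N ≤ K.n := by
  obtain ⟨K, hK, ⟨e⟩⟩ := exists_min G0 _ _ rfl (H2_inP (2 * N + 10) (by omega) (by omega))
  refine ⟨K, hK, ?_⟩
  have : (Finset.Icc 8 (2 * N + 10)).card ≤ (univ : Finset (Fin K.n)).card := by
    refine Finset.card_le_card_of_surjOn (fun u => (e u).val) fun j hj => ?_
    simp only [coe_Icc, Set.mem_Icc] at hj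
    obtain ⟨u, hu⟩ := big _ K hK.1 e j hj.1 hj.2
    exact ⟨u, by simp, hu⟩
  simp only [card_univ, Fintype.card_fin, Nat.card_Icc] at this
  omega

lemma len_eq {H H' : FG} (h : degSeq H' = degSeq H) : H'.n = H.n := by
  obtain ⟨σ, -⟩ := exists_equiv h
  simpa using (Fintype.card_congr σ).symm

lemma iso_of_le {H F : FG} (e : F.G ↪g H.G) (h : H.n ≤ F.n) : Nonempty (F.G ≃g H.G) := by
  have h1 : F.n ≤ H.n := by simpa using Fintype.card_le_of_injective e e.injective
  have : Function.Bijective e :=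
    (Fintype.bijective_iff_injective_and_card e).2 ⟨e.injective, by simp; omega⟩
  exact ⟨RelIso.ofSurjective e this.2⟩

def patch {V W : Type} (H : SimpleGraph W) (e : V → W) (he : Function.Injective e)
    (L : SimpleGraph V) : SimpleGraph W where
  Adj x y := (∃ a b, e a = x ∧ e b = y ∧ L.Adj a b) ∨
    (¬ (x ∈ Set.range e ∧ y ∈ Set.range e) ∧ H.Adj x y)
  symm := ⟨fun _ _ h => h.elim (fun ⟨a, b, h1, h2, h3⟩ => Or.inl ⟨b, a, h2, h1, h3.symm⟩)
    (fun h => Or.inr ⟨fun t => h.1 t.symm, h.2.symm⟩)⟩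
  loopless := ⟨fun _ h => h.elim
    (fun ⟨a, b, h1, h2, h3⟩ => h3.ne (he (h1.trans h2.symm))) (fun h => h.2.ne rfl)⟩

lemma patch_adj {V W : Type} (H : SimpleGraph W) (e : V → W) (he : Function.Injective e)
    (L : SimpleGraph V) (a b : V) : (patch H e he L).Adj (e a) (e b) ↔ L.Adj a b := by
  constructor
  · rintro (⟨a', b', h1, h2, h3⟩ | h)
    · rwa [← he h1, ← he h2]
    · exact absurd ⟨⟨a, rfl⟩, ⟨b, rfl⟩⟩ h.1
  · exact fun h => Or.inl ⟨a, b, rfl, rfl, h⟩

lemma split_ncard {V W : Type} [Finite W] (H : SimpleGraph W) (K : SimpleGraph V) (e : V → W)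
    (he : Function.Injective e) (h : ∀ a b, H.Adj (e a) (e b) ↔ K.Adj a b) (a : V) :
    (H.neighborSet (e a)).ncard
      = (K.neighborSet a).ncard + (H.neighborSet (e a) \ Set.range e).ncard := by
  rw [← Set.ncard_inter_add_ncard_diff_eq_ncard (H.neighborSet (e a)) (Set.range e),
    ← Set.ncard_image_of_injective (K.neighborSet a) he]
  congr 2
  ext y
  constructor
  · rintro ⟨h1, b, rfl⟩
    exact ⟨b, (h a b).1 h1, rfl⟩
  · rintro ⟨b, h1, rfl⟩
    exact ⟨(h a b).2 h1, b, rfl⟩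

lemma patch_deg {V W : Type} [Finite W] (H : SimpleGraph W) (K L : SimpleGraph V) (e : K ↪g H)
    (hd : ∀ a, (L.neighborSet a).ncard = (K.neighborSet a).ncard) (x : W) :
    ((patch H e e.injective L).neighborSet x).ncard = (H.neighborSet x).ncard := by
  by_cases hx : x ∈ Set.range e
  · obtain ⟨a, rfl⟩ := hx
    rw [split_ncard _ L e e.injective (patch_adj H e e.injective L) a,
      split_ncard H K e e.injective (fun _ _ => e.map_adj_iff) a, hd]
    congr 2
    ext y
    constructor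
    · rintro ⟨⟨a', b, -, h2, -⟩ | h, hy⟩
      · exact absurd ⟨b, h2⟩ hy
      · exact ⟨h.2, hy⟩
    · rintro ⟨h, hy⟩
      exact ⟨Or.inr ⟨fun t => hy t.2, h⟩, hy⟩
  · congr 1
    ext y
    constructor
    · rintro (⟨a', b, h1, -, -⟩ | h)
      · exact absurd ⟨a', h1⟩ hx
      · exact h.2
    · exact fun h => Or.inr ⟨fun t => hx t.1, h⟩

lemma inP_up {G H K : FG} (hK : InP G K) (h : Induces H K) : InP G H := by
  obtain ⟨e⟩ := h
  obtain ⟨L, hL, ⟨f⟩⟩ := hK
  obtain ⟨σ, hσ⟩ := exists_equiv hL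
  have hd : ∀ a, ((L.G.comap σ).neighborSet a).ncard = (K.G.neighborSet a).ncard := by
    intro a
    rw [← hσ a, ← Set.ncard_image_of_injective ((L.G.comap σ).neighborSet a) σ.injective]
    congr 1
    ext y
    rw [Set.mem_image_equiv]
    simp
  refine ⟨⟨H.n, patch H.G e e.injective (L.G.comap σ)⟩, ?_,
    ⟨⟨⟨fun x => e (σ.symm (f x)), fun a b h => f.injective (σ.symm.injective (e.injective h))⟩,
      fun {a b} => ?_⟩⟩⟩
  · unfold degSeq
    congr 1
    exact Multiset.map_congr rfl fun v _ => patch_deg H.G K.G _ e hd v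
  · refine (patch_adj H.G e e.injective (L.G.comap σ) _ _).trans ?_
    simp only [SimpleGraph.comap_adj, Equiv.apply_symm_apply]
    exact f.map_adj_iff

lemma self_inP (G : FG) : InP G G := ⟨G, rfl, ⟨SimpleGraph.Embedding.refl⟩⟩

lemma minimal (G : FG) : MinimalDSF {H | InD G H} := by
  refine ⟨⟨?_, ?_⟩, ?_⟩
  · obtain ⟨K, hK, -⟩ := exists_min G _ G rfl (self_inP G)
    exact ⟨K, hK⟩
  · intro H H' hd hf F hF hi
    obtain ⟨L, hL, hG⟩ := inP_up hF.1 hi
    obtain ⟨K, hK, hHK⟩ := exists_min G _ H rfl ⟨L, hL.trans hd.symm, hG⟩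
    exact hf K hK hHK
  · rintro T hT ⟨hne, hdsf⟩ F hF
    have aux : ∀ H H' : FG, degSeq H = degSeq H' → ∀ A ∈ T, Induces H' A →
        ∃ B ∈ T, Induces H B := by
      intro H H' hd A hA hi
      by_contra hn
      exact hdsf H H' hd (fun B hB hb => hn ⟨B, hB, hb⟩) A hA hi
    obtain ⟨F0, hF0, hmin⟩ : ∃ F0 ∈ T, ∀ A ∈ T, F0.n ≤ A.n :=
      ⟨Function.argminOn FG.n T hne, Function.argminOn_mem FG.n T hne,
        fun A hA => Function.argminOn_le FG.n T hA⟩
    obtain ⟨L, hL, ⟨g⟩⟩ := (hT hF0).1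
    obtain ⟨F1, hF1, ⟨e1⟩⟩ := aux L F0 hL F0 hF0 ⟨SimpleGraph.Embedding.refl⟩
    obtain ⟨φ⟩ := iso_of_le e1 (by rw [len_eq hL]; exact hmin F1 hF1)
    have g1 : G.G ↪g F1.G := φ.symm.toEmbedding.comp g
    obtain ⟨ψ⟩ := iso_of_le g1 (not_lt.1 fun h => (hT hF1).2 G h ⟨g1⟩ (self_inP G))
    obtain ⟨M, hM, ⟨g2⟩⟩ := hF.1
    obtain ⟨F2, hF2, ⟨e2⟩⟩ := aux F M hM.symm F1 hF1 ⟨g2.comp ψ.symm.toEmbedding⟩
    obtain ⟨χ⟩ := iso_of_le e2 (not_lt.1 fun h => hF.2 F2 h ⟨e2⟩ (hT hF2).1)
    exact ⟨F2, hF2, ⟨χ.symm⟩⟩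

theorem result : ∃ S : Set FG, MinimalDSF S ∧ ∃ F : ℕ → FG, (∀ i, F i ∈ S) ∧
    ∀ i j, i ≠ j → IsEmpty ((F i).G ≃g (F j).G) := by
  have hinf : {n | ∃ K, InD G0 K ∧ K.n = n}.Infinite := by
    refine Set.infinite_of_forall_exists_gt fun N => ?_
    obtain ⟨K, h1, h2⟩ := unbounded (N + 1)
    exact ⟨K.n, ⟨K, h1, rfl⟩, by omega⟩
  let g := hinf.natEmbedding
  choose F hF using fun i => (g i).2
  refine ⟨_, minimal G0, F, fun i => (hF i).1, fun i j hij => ⟨fun φ => hij ?_⟩⟩
  have := Fintype.card_congr φ.toEquiv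
  simp only [Fintype.card_fin, (hF i).2, (hF j).2] at this
  exact g.injective (Subtype.ext this)

end Pool.Agent.Results.MP_b4d381_co.InfiniteMin
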